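import Pool.Agent.X248.SC.Main

/-!
# Recognising split clique graphs with a bounded stable side: correctness and running time
-/

set_option autoImplicit false

namespace Pool.Agent.X248.SC

open Pool.Agent.NPC Pool.Agent.H622R2
open Pool.Agent.H495R3 (adjB adjB_iff)
open Pool.Agent.X248.Core (cnt card_filter_fin)

/-- The first conditions of the test. -/
def pre (M : List (List Bool)) (L : List ℕ) : Prop :=
  (∀ a < L.length, ∀ b < L.length, L.getD a 0 = L.getD b 0 → a = b) ∧
  (∀ a ∈ L, ∀ b ∈ L, adjB M a b = false) ∧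
  (∀ x < M.length, ∀ y < M.length, x ∉ L → y ∉ L → x ≠ y → adjB M x y = true) ∧
  (∀ x < M.length, x ∉ L → ∃ a ∈ L, adjB M a x = true)

theorem okL_iff (tab : List (ℕ × List (List ℕ × ℕ))) (M : List (List Bool)) (L : List ℕ) :
    okL tab M L = true ↔ (pre M L ∧
      (tab.any fun e => decide (e.1 = L.length) && e.2.all fun p => cmp p.2 (cntL M L p.1)) =
        true) := by
  unfold okL pre
  rw [Bool.and_eq_true, Bool.and_eq_true, Bool.and_eq_true, Bool.and_eq_true, and_assoc, and_assoc,
    and_assoc, and_assoc, and_assoc, and_assoc]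
  refine and_congr ?_ (and_congr ?_ (and_congr ?_ (and_congr ?_ Iff.rfl)))
  · simp only [List.all_eq_true, List.mem_range, Bool.or_eq_true, decide_eq_true_eq,
      Bool.not_eq_true', decide_eq_false_iff_not]
    refine forall_congr' fun a => forall_congr' fun _ => forall_congr' fun b =>
      forall_congr' fun _ => ?_
    tauto
  · simp only [List.all_eq_true, Bool.not_eq_true']
  · simp only [List.all_eq_true, List.mem_range, Bool.or_eq_true, decide_eq_true_eq]
    refine forall_congr' fun a => forall_congr' fun _ => forall_congr' fun b =>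
      forall_congr' fun _ => ?_
    tauto
  · simp only [List.all_eq_true, List.mem_range, Bool.or_eq_true, decide_eq_true_eq,
      List.any_eq_true]
    refine forall_congr' fun a => forall_congr' fun _ => ?_
    tauto

section

variable (M : List (List Bool)) (L : List ℕ) (hL : ∀ v ∈ L, v < M.length)

/-- The enumeration of the stable side. -/
def en (i : Fin L.length) : Fin M.length := ⟨L[i.1], hL _ (List.getElem_mem _)⟩

/-- The type. -/
noncomputable def ty (x : Fin M.length) : Finset (Fin L.length) := by
  classical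
  exact Finset.univ.filter fun i => (matGraph M).Adj (en M L hL i) x

theorem getD_eq (i : Fin L.length) : L.getD i.1 0 = L[i.1] := by
  rw [List.getD_eq_getElem?_getD, List.getElem?_eq_getElem i.2]
  rfl

theorem tyL_eq (x : Fin M.length) : tyL M L x.1 = can (ty M L hL x) := by
  classical
  unfold tyL can
  apply List.filter_congr
  intro i hi
  have hi' : i < L.length := List.mem_range.1 hi
  have h1 : (∃ h : i < L.length, (⟨i, h⟩ : Fin L.length) ∈ ty M L hL x) ↔
      adjB M (L.getD i 0) x.1 = true := by
    rw [getD_eq L ⟨i, hi'⟩]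
    unfold ty
    simp only [Finset.mem_filter, Finset.mem_univ, true_and]
    constructor
    · rintro ⟨_, h⟩
      exact (adjB_iff M (en M L hL ⟨i, hi'⟩) x).2 h
    · intro h
      exact ⟨hi', (adjB_iff M (en M L hL ⟨i, hi'⟩) x).1 h⟩
  by_cases h2 : adjB M (L.getD i 0) x.1 = true
  · rw [h2]
    exact (decide_eq_true (h1.2 h2)).symm
  · rw [Bool.not_eq_true] at h2
    rw [h2]
    refine (decide_eq_false fun h => ?_).symm
    rw [h1, h2] at h
    exact absurd h (by simp)

theorem mem_range_en (x : Fin M.length) : x ∈ Set.range (en M L hL) ↔ x.1 ∈ L := by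
  constructor
  · rintro ⟨i, rfl⟩
    exact List.getElem_mem _
  · intro h
    obtain ⟨i, hi, he⟩ := List.getElem_of_mem h
    exact ⟨⟨i, hi⟩, Fin.ext he⟩

theorem cntL_eq (F : Finset (Fin L.length)) :
    cntL M L (can F) = cnts (fun x : {x // x ∉ Set.range (en M L hL)} => ty M L hL x.1) F := by
  classical
  unfold cntL cnts
  rw [← card_filter_fin, ← Fintype.card_subtype, ← Nat.card_eq_fintype_card]
  apply Nat.card_congr
  refine ⟨fun x => ⟨⟨x.1, ?_⟩, ?_⟩, fun x => ⟨x.1.1, ?_⟩, fun x => rfl, fun x => rfl⟩
  · have := x.2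
    simp only [Bool.and_eq_true, Bool.not_eq_true', decide_eq_false_iff_not,
      decide_eq_true_eq] at this
    rw [mem_range_en]
    exact this.1
  · have := x.2
    simp only [Bool.and_eq_true, Bool.not_eq_true', decide_eq_false_iff_not,
      decide_eq_true_eq] at this
    rw [tyL_eq M L hL] at this
    exact can_inj this.2
  · have h1 := x.1.2
    rw [mem_range_en] at h1
    simp only [Bool.and_eq_true, Bool.not_eq_true', decide_eq_false_iff_not,
      decide_eq_true_eq]
    refine ⟨h1, ?_⟩
    rw [tyL_eq M L hL]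
    exact congrArg can x.2

theorem pre_clique (hpre : pre M L) :
    Function.Injective (en M L hL) ∧
    (∀ a b, ¬ (matGraph M).Adj (en M L hL a) (en M L hL b)) ∧
    (∀ x, x ∉ Set.range (en M L hL) → ∀ y, y ∉ Set.range (en M L hL) → x ≠ y →
      (matGraph M).Adj x y) := by
  obtain ⟨h1, h2, h3, h4⟩ := hpre
  refine ⟨?_, ?_, ?_⟩
  · intro a b hab
    refine Fin.ext (h1 a a.2 b b.2 ?_)
    rw [getD_eq, getD_eq]
    exact congrArg Fin.val hab
  · intro a b hab
    have h5 : adjB M (en M L hL a) (en M L hL b) = false :=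
      h2 _ (List.getElem_mem a.2) _ (List.getElem_mem b.2)
    rw [(adjB_iff M (en M L hL a) (en M L hL b)).2 hab] at h5
    exact absurd h5 (by simp)
  · intro x hx y hy hxy
    rw [mem_range_en] at hx hy
    exact (adjB_iff M x y).1 (h3 x x.2 y y.2 hx hy (fun h => hxy (Fin.ext h)))

end

/-- **Correctness of the algorithm.** -/
theorem decR_iff {k : ℕ} {tab : List (ℕ × List (List ℕ × ℕ))}
    (htab : ∀ j ≤ k, ∀ (c : Finset (Fin j) → ℕ) (c' : List ℕ → ℕ), (∀ F, c' (can F) = c F) →
      (Yes c ↔ (tab.any fun e => decide (e.1 = j) && e.2.all fun p => cmp p.2 (c' p.1)) = true))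
    (M : List (List Bool)) : REC k M ↔ decR tab k M = true := by
  classical
  have key : ∀ L : List ℕ, L.length ≤ k → (∀ v ∈ L, v < M.length) → pre M L →
      (IsCliqueGraph (matGraph M) ↔ (tab.any fun e => decide (e.1 = L.length) &&
        e.2.all fun p => cmp p.2 (cntL M L p.1)) = true) := by
    intro L hlen hL hpre
    obtain ⟨h1, h2, h3⟩ := pre_clique M L hL hpre
    rw [clique_iff h1 h2 h3 (fun x => ty M L hL x.1) (by
      intro x i
      simp [ty])]
    exact htab _ hlen _ _ (cntL_eq M L hL)
  unfold REC decR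
  rw [List.any_eq_true]
  constructor
  · rintro ⟨⟨S, hS, hs1, hs2, hs3⟩, hG⟩
    have hmem : ∀ x : Fin M.length, x.1 ∈ S.toList.map Fin.val ↔ x ∈ S := by
      intro x
      simp only [List.mem_map, Finset.mem_toList]
      constructor
      · rintro ⟨y, hy, h⟩
        rwa [← Fin.ext h]
      · intro h
        exact ⟨x, h, rfl⟩
    have hlt : ∀ v ∈ S.toList.map Fin.val, v < M.length := by
      intro v hv
      obtain ⟨y, _, rfl⟩ := List.mem_map.1 hv
      exact y.2
    have hlen : (S.toList.map Fin.val).length ≤ k := by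
      rw [List.length_map, Finset.length_toList]
      exact hS
    have hnd : (S.toList.map Fin.val).Nodup := S.nodup_toList.map Fin.val_injective
    have hpre : pre M (S.toList.map Fin.val) := by
      refine ⟨?_, ?_, ?_, ?_⟩
      · intro a ha b hb hab
        rw [getD_eq _ ⟨a, ha⟩, getD_eq _ ⟨b, hb⟩] at hab
        exact (List.Nodup.getElem_inj_iff hnd).1 hab
      · intro a ha b hb
        have h1 := (hmem ⟨a, hlt a ha⟩).1 ha
        have h2 := (hmem ⟨b, hlt b hb⟩).1 hb
        have h3 := hs1 _ h1 _ h2
        rw [← adjB_iff] at h3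
        simpa using h3
      · intro x hx y hy hxL hyL hxy
        exact (adjB_iff M ⟨x, hx⟩ ⟨y, hy⟩).2 (hs2 _ (fun h => hxL ((hmem ⟨x, hx⟩).2 h)) _
          (fun h => hyL ((hmem ⟨y, hy⟩).2 h)) (fun h => hxy (congrArg Fin.val h)))
      · intro x hx hxL
        obtain ⟨s, hs, h⟩ := hs3 ⟨x, hx⟩ (fun h => hxL ((hmem ⟨x, hx⟩).2 h))
        exact ⟨s.1, (hmem s).2 hs, (adjB_iff M s ⟨x, hx⟩).2 h⟩
    exact ⟨_, (mem_lists _ _ _).2 ⟨hlen, hlt⟩, (okL_iff _ _ _).2 ⟨hpre,
      (key _ hlen hlt hpre).1 hG⟩⟩
  · rintro ⟨L, hL, hok⟩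
    obtain ⟨hlen, hlt⟩ := (mem_lists _ _ _).1 hL
    obtain ⟨hpre, htb⟩ := (okL_iff _ _ _).1 hok
    refine ⟨⟨Finset.univ.image (en M L hlt), ?_, ?_, ?_, ?_⟩, (key L hlen hlt hpre).2 htb⟩
    · exact (Finset.card_image_le).trans (by rw [Finset.card_univ, Fintype.card_fin]; exact hlen)
    all_goals
      obtain ⟨h1, h2, h3⟩ := pre_clique M L hlt hpre
      have hmem : ∀ x, x ∈ Finset.univ.image (en M L hlt) ↔ x ∈ Set.range (en M L hlt) := by
        intro x
        simp
    · intro s hs s' hs'
      obtain ⟨a, rfl⟩ := (hmem s).1 hs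
      obtain ⟨b, rfl⟩ := (hmem s').1 hs'
      exact h2 a b
    · intro x hx y hy hxy
      exact h3 x (fun h => hx ((hmem x).2 h)) y (fun h => hy ((hmem y).2 h)) hxy
    · intro x hx
      rw [hmem, mem_range_en] at hx
      obtain ⟨a, ha, hadj⟩ := hpre.2.2.2 x x.2 hx
      refine ⟨⟨a, hlt a ha⟩, ?_, (adjB_iff M ⟨a, hlt a ha⟩ x).1 hadj⟩
      rw [hmem, mem_range_en]
      exact ha

section PolyTime

theorem lists_poly {α : Type} [TEnc α] {n : α → ℕ} (hn : Poly (fun a => List.range (n a))) :
    ∀ k, Poly (fun a => lists (n a) k)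
  | 0 => NPC.Poly.const _
  | k + 1 => by
    have ih := lists_poly hn k
    unfold lists
    refine Poly.cons (NPC.Poly.const _) ?_
    refine Poly.flatMap (F := fun a v => (lists (n a) k).map fun L => v :: L) hn ?_
    refine NPC.Poly.map (F := fun (p : α × ℕ) L => p.2 :: L)
      (ih.comp (f := fun p : α × ℕ => p.1) (by fun_prop)) ?_
    fun_prop

theorem poly_tyL {α : Type} [TEnc α] {M : α → List (List Bool)} {L : α → List ℕ} {x : α → ℕ}
    (hM : Poly M) (hL : Poly L) (hx : Poly x) : Poly (fun a => tyL (M a) (L a) (x a)) := by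
  unfold tyL
  exact Poly.filter (p := fun a i => adjB (M a) ((L a).getD i 0) (x a))
    (Poly.range_length hL) (by fun_prop)

attribute [local fun_prop] poly_tyL

theorem poly_cntL {α : Type} [TEnc α] {M : α → List (List Bool)} {L : α → List ℕ}
    {T : α → List ℕ} (hM : Poly M) (hL : Poly L) (hT : Poly T) :
    Poly (fun a => cntL (M a) (L a) (T a)) := by
  unfold cntL cnt
  have h : Poly (fun a => (List.range (M a).length).filter fun x =>
      !decide (x ∈ L a) && decide (tyL (M a) (L a) x = T a)) :=
    Poly.filter (p := fun a x => !decide (x ∈ L a) && decide (tyL (M a) (L a) x = T a))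
      (Poly.range_length hM) (by fun_prop)
  fun_prop

attribute [local fun_prop] poly_cntL

theorem poly_cmp {α : Type} [TEnc α] {m c : α → ℕ} (hm : Poly m) (hc : Poly c) :
    Poly (fun a => cmp (m a) (c a)) := by
  unfold cmp
  fun_prop

attribute [local fun_prop] poly_cmp

theorem poly_okL (tab : List (ℕ × List (List ℕ × ℕ))) :
    Poly (fun p : List (List Bool) × List ℕ => okL tab p.1 p.2) := by
  unfold okL
  have hr : Poly (fun p : List (List Bool) × List ℕ => List.range p.1.length) :=
    Poly.range_length (by fun_prop)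
  have hl : Poly (fun p : List (List Bool) × List ℕ => List.range p.2.length) :=
    Poly.range_length (by fun_prop)
  have h1 : Poly (fun p : List (List Bool) × List ℕ =>
      (List.range p.2.length).all fun a => (List.range p.2.length).all fun b =>
        decide (a = b) || !decide (p.2.getD a 0 = p.2.getD b 0)) := by
    refine Poly.all (p := fun (p : List (List Bool) × List ℕ) a =>
      (List.range p.2.length).all fun b =>
        decide (a = b) || !decide (p.2.getD a 0 = p.2.getD b 0)) hl ?_
    exact Poly.all (p := fun (q : (List (List Bool) × List ℕ) × ℕ) b =>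
      decide (q.2 = b) || !decide (q.1.2.getD q.2 0 = q.1.2.getD b 0))
      (Poly.range_length (by fun_prop)) (by fun_prop)
  have h2 : Poly (fun p : List (List Bool) × List ℕ =>
      p.2.all fun a => p.2.all fun b => !adjB p.1 a b) := by
    fun_prop
  have h3 : Poly (fun p : List (List Bool) × List ℕ =>
      (List.range p.1.length).all fun x => (List.range p.1.length).all fun y =>
        decide (x ∈ p.2) || decide (y ∈ p.2) || decide (x = y) || adjB p.1 x y) := by
    refine Poly.all (p := fun (p : List (List Bool) × List ℕ) x =>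
      (List.range p.1.length).all fun y =>
        decide (x ∈ p.2) || decide (y ∈ p.2) || decide (x = y) || adjB p.1 x y) hr ?_
    exact Poly.all (p := fun (q : (List (List Bool) × List ℕ) × ℕ) y =>
      decide (q.2 ∈ q.1.2) || decide (y ∈ q.1.2) || decide (q.2 = y) || adjB q.1.1 q.2 y)
      (Poly.range_length (by fun_prop)) (by fun_prop)
  have h4 : Poly (fun p : List (List Bool) × List ℕ =>
      (List.range p.1.length).all fun x => decide (x ∈ p.2) || p.2.any fun a => adjB p.1 a x) :=
    Poly.all (p := fun (p : List (List Bool) × List ℕ) x =>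
      decide (x ∈ p.2) || p.2.any fun a => adjB p.1 a x) hr (by fun_prop)
  have h5 : Poly (fun p : List (List Bool) × List ℕ =>
      tab.any fun e => decide (e.1 = p.2.length) && e.2.all fun q => cmp q.2 (cntL p.1 p.2 q.1)) := by
    refine Poly.any (p := fun (p : List (List Bool) × List ℕ) (e : ℕ × List (List ℕ × ℕ)) =>
      decide (e.1 = p.2.length) && e.2.all fun q => cmp q.2 (cntL p.1 p.2 q.1))
      (NPC.Poly.const _) ?_
    refine Poly.and (by fun_prop) ?_
    exact Poly.all (p := fun (p : (List (List Bool) × List ℕ) × (ℕ × List (List ℕ × ℕ)))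
      (q : List ℕ × ℕ) => cmp q.2 (cntL p.1.1 p.1.2 q.1)) (by fun_prop) (by fun_prop)
  fun_prop

theorem poly_decR (tab : List (ℕ × List (List ℕ × ℕ))) (k : ℕ) : Poly (decR tab k) := by
  unfold decR
  exact Poly.any (p := fun (M : List (List Bool)) L => okL tab M L)
    (lists_poly (Poly.range_length Poly.id) k) (poly_okL tab)

end PolyTime

/-- **The problem `REC_S(k)` is decided in polynomial time for every `k`.** -/
theorem inPP_REC (k : ℕ) : InPP (REC k) := by
  obtain ⟨tab, htab⟩ := table_all k
  exact inPP_of (poly_decR tab k) (decR_iff htab)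

end Pool.Agent.X248.SC
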