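import Pool.Agent.X248.SC.Twin

/-!
# Split graphs given by the types of their clique vertices
-/

set_option autoImplicit false

namespace Pool.Agent.X248.SC

/-- The split graph with stable side `Fin j` and clique side `X`; the vertex `x` is adjacent to the
stable vertices in `t x`. -/
def SG {X : Type} {j : ℕ} (t : X → Finset (Fin j)) : SimpleGraph (Fin j ⊕ X) where
  Adj u v := match u, v with
    | Sum.inl _, Sum.inl _ => False
    | Sum.inl i, Sum.inr x => i ∈ t x
    | Sum.inr x, Sum.inl i => i ∈ t x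
    | Sum.inr x, Sum.inr y => x ≠ y
  symm := ⟨by
    rintro (u | u) (v | v) h
    · exact h
    · exact h
    · exact h
    · exact Ne.symm h⟩
  loopless := ⟨by
    rintro (u | u) h
    · exact h
    · exact h rfl⟩

theorem SG_iso_of_equiv {X Y : Type} {j : ℕ} {t : X → Finset (Fin j)} {s : Y → Finset (Fin j)}
    (e : X ≃ Y) (h : ∀ x, s (e x) = t x) : Nonempty (SG t ≃g SG s) := by
  refine ⟨⟨Equiv.sumCongr (Equiv.refl _) e, ?_⟩⟩
  rintro (u | u) (v | v)
  · exact Iff.rfl
  · show u ∈ s (e v) ↔ u ∈ t v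
    rw [h]
  · show v ∈ s (e u) ↔ v ∈ t u
    rw [h]
  · show e u ≠ e v ↔ u ≠ v
    exact e.injective.ne_iff

/-- The number of vertices of a given type. -/
noncomputable def cnts {X : Type} [Finite X] {j : ℕ} (t : X → Finset (Fin j)) (T : Finset (Fin j)) :
    ℕ := Nat.card {x // t x = T}

/-- The canonical graph with given counts. -/
def canon {j : ℕ} (c : Finset (Fin j) → ℕ) : (Σ T : Finset (Fin j), Fin (c T)) → Finset (Fin j) :=
  Sigma.fst

theorem exists_equiv {X : Type} [Finite X] {j : ℕ} (t : X → Finset (Fin j)) :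
    ∃ e : X ≃ (Σ T : Finset (Fin j), Fin (cnts t T)), ∀ x, canon (cnts t) (e x) = t x := by
  classical
  refine ⟨(Equiv.sigmaFiberEquiv t).symm.trans
    (Equiv.sigmaCongrRight fun T => Finite.equivFin _), fun x => rfl⟩

theorem SG_canon {X : Type} [Finite X] {j : ℕ} (t : X → Finset (Fin j)) :
    Nonempty (SG t ≃g SG (canon (cnts t))) := by
  obtain ⟨e, he⟩ := exists_equiv t
  exact SG_iso_of_equiv e he

/-- The counts for which the graph is a clique graph. -/
def Yes {j : ℕ} (c : Finset (Fin j) → ℕ) : Prop := IsCliqueGraph (SG (canon c))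

theorem yes_iff {X : Type} [Finite X] {j : ℕ} (t : X → Finset (Fin j)) :
    IsCliqueGraph (SG t) ↔ Yes (cnts t) := by
  obtain ⟨e⟩ := SG_canon t
  exact ⟨fun h => h.of_iso e.symm, fun h => IsCliqueGraph.of_iso e h⟩

theorem cnts_canon {j : ℕ} (c : Finset (Fin j) → ℕ) : cnts (canon c) = c := by
  funext T
  unfold cnts
  have e : {x : Σ T : Finset (Fin j), Fin (c T) // canon c x = T} ≃ Fin (c T) :=
    { toFun := fun x => x.2 ▸ x.1.2
      invFun := fun a => ⟨⟨T, a⟩, rfl⟩
      left_inv := by rintro ⟨⟨T', a⟩, rfl⟩; rfl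
      right_inv := fun a => rfl }
  rw [Nat.card_congr e, Nat.card_fin]

/-- The twin of a split graph. -/
theorem twin_iso {X : Type} {j : ℕ} (t : X → Finset (Fin j)) (x : X) :
    Nonempty (twin (SG t) (Sum.inr x) ≃g SG (fun o : Option X => o.elim (t x) t)) := by
  refine ⟨⟨⟨fun o => match o with
    | none => Sum.inr none
    | some (Sum.inl i) => Sum.inl i
    | some (Sum.inr y) => Sum.inr (some y), fun o => match o with
    | Sum.inr none => none
    | Sum.inl i => some (Sum.inl i)
    | Sum.inr (some y) => some (Sum.inr y), ?_, ?_⟩, ?_⟩⟩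
  · rintro (_ | (i | y)) <;> rfl
  · rintro (i | (_ | y)) <;> rfl
  · rintro (_ | (i | y)) (_ | (i' | y'))
    · show (none : Option X) ≠ none ↔ False
      simp
    · show i' ∈ t x ↔ (Sum.inl i' = Sum.inr x ∨ i' ∈ t x)
      simp
    · show (none : Option X) ≠ some y' ↔ (Sum.inr y' = Sum.inr x ∨ x ≠ y')
      simp only [ne_eq, reduceCtorEq, not_false_eq_true, Sum.inr.injEq, true_iff]
      by_cases h : y' = x
      · exact Or.inl h
      · exact Or.inr (fun h' => h h'.symm)
    · show i ∈ t x ↔ (Sum.inl i = Sum.inr x ∨ i ∈ t x)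
      simp
    · exact Iff.rfl
    · exact Iff.rfl
    · show some y ≠ none ↔ (Sum.inr y = Sum.inr x ∨ x ≠ y)
      simp only [ne_eq, reduceCtorEq, not_false_eq_true, Sum.inr.injEq, true_iff]
      by_cases h : y = x
      · exact Or.inl h
      · exact Or.inr (fun h' => h h'.symm)
    · exact Iff.rfl
    · show some y ≠ some y' ↔ y ≠ y'
      simp

theorem cnts_option {X : Type} [Finite X] {j : ℕ} (t : X → Finset (Fin j)) (x : X)
    (T : Finset (Fin j)) :
    cnts (fun o : Option X => o.elim (t x) t) T = cnts t T + if t x = T then 1 else 0 := by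
  classical
  have := Fintype.ofFinite X
  unfold cnts
  rw [Nat.card_eq_fintype_card, Nat.card_eq_fintype_card, Fintype.card_subtype,
    Fintype.card_subtype, Finset.card_filter, Finset.card_filter, Fintype.sum_option, add_comm]
  rfl

/-- **Adding one more vertex of a type which occurs.** -/
theorem Yes.add {j : ℕ} {c : Finset (Fin j) → ℕ} (h : Yes c) (T : Finset (Fin j)) (hT : 0 < c T) :
    Yes (fun T' => c T' + if T = T' then 1 else 0) := by
  have h1 := isCliqueGraph_twin h (Sum.inr ⟨T, ⟨0, hT⟩⟩)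
  obtain ⟨e⟩ := twin_iso (canon c) ⟨T, ⟨0, hT⟩⟩
  have h2 := (yes_iff _).1 (IsCliqueGraph.of_iso e.symm h1)
  have h3 : cnts (fun o : Option (Σ T : Finset (Fin j), Fin (c T)) =>
      o.elim (canon c ⟨T, ⟨0, hT⟩⟩) (canon c)) = fun T' => c T' + if T = T' then 1 else 0 := by
    funext T'
    rw [cnts_option, cnts_canon]
    rfl
  rw [h3] at h2
  exact h2

theorem Yes.mono {j : ℕ} {c c' : Finset (Fin j) → ℕ} (h : Yes c) (hle : ∀ T, c T ≤ c' T)
    (hs : ∀ T, c T = 0 → c' T = 0) : Yes c' := by
  classical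
  suffices H : ∀ (n : ℕ) (c : Finset (Fin j) → ℕ), Yes c → (∀ T, c T ≤ c' T) →
      (∀ T, c T = 0 → c' T = 0) → (∑ T, (c' T - c T)) = n → Yes c' from
    H _ c h hle hs rfl
  intro n
  induction n with
  | zero =>
    intro c h hle hs hn
    have : c' = c := by
      funext T
      have h1 := (Finset.sum_eq_zero_iff.1 hn) T (Finset.mem_univ _)
      have h2 := hle T
      omega
    rw [this]
    exact h
  | succ n ih =>
    intro c h hle hs hn
    have hex : ∃ T, c T < c' T := by
      by_contra hcon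
      push Not at hcon
      have : ∑ T, (c' T - c T) = 0 := Finset.sum_eq_zero fun T _ => by
        have := hcon T
        omega
      omega
    obtain ⟨T, hT⟩ := hex
    have hpos : 0 < c T := by
      rcases Nat.eq_zero_or_pos (c T) with h0 | h0
      · have := hs T h0
        omega
      · exact h0
    refine ih (fun T' => c T' + if T = T' then 1 else 0) (h.add T hpos) ?_ ?_ ?_
    · intro T'
      show c T' + (if T = T' then 1 else 0) ≤ c' T'
      have := hle T'
      split_ifs with hTT
      · subst hTT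
        omega
      · omega
    · intro T' h0
      have h0' : c T' + (if T = T' then 1 else 0) = 0 := h0
      exact hs T' (by omega)
    · have h1 : ∀ T', c' T' - c T' = (c' T' - (c T' + if T = T' then 1 else 0)) +
          if T = T' then 1 else 0 := by
        intro T'
        split_ifs with hTT
        · subst hTT
          omega
        · omega
      have h2 : ∑ T', (c' T' - c T') = ∑ T', (c' T' - (c T' + if T = T' then 1 else 0)) +
          ∑ T', (if T = T' then 1 else 0) := by
        rw [← Finset.sum_add_distrib]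
        exact Finset.sum_congr rfl fun T' _ => h1 T'
      rw [Finset.sum_ite_eq, if_pos (Finset.mem_univ _)] at h2
      show ∑ T', (c' T' - (c T' + if T = T' then 1 else 0)) = n
      omega

/-- The comparison of counts. -/
def Below {j : ℕ} (v c : Finset (Fin j) → ℕ) : Prop := ∀ T, v T ≤ c T ∧ (v T = 0 → c T = 0)

/-- **A finite table decides.** -/
theorem exists_table (j : ℕ) : ∃ B : Finset (Finset (Fin j) → ℕ),
    ∀ c : Finset (Fin j) → ℕ, Yes c ↔ ∃ v ∈ B, Below v c := by
  classical
  -- for each support a finite set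
  have key : ∀ P : Finset (Finset (Fin j)), ∃ B : Finset (Finset (Fin j) → ℕ),
      (∀ v ∈ B, Yes v ∧ ∀ T, v T = 0 ↔ T ∉ P) ∧
      ∀ c : Finset (Fin j) → ℕ, Yes c → (∀ T, c T = 0 ↔ T ∉ P) → ∃ v ∈ B, v ≤ c := by
    intro P
    let Z : Set (Finset (Fin j) → ℕ) := {v | Yes v ∧ ∀ T, v T = 0 ↔ T ∉ P}
    have hfin : {v | Minimal (· ∈ Z) v}.Finite :=
      (setOf_minimal_antichain (· ∈ Z)).finite_of_partiallyWellOrderedOn
        (Set.isPWO_of_wellQuasiOrderedLE _)
    refine ⟨hfin.toFinset, ?_, ?_⟩
    · intro v hv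
      rw [Set.Finite.mem_toFinset] at hv
      exact hv.1
    · intro c hc hP
      obtain ⟨m, hm, hmin⟩ := exists_minimal_le_of_wellFoundedLT (· ∈ Z) c ⟨hc, hP⟩
      exact ⟨m, by rw [Set.Finite.mem_toFinset]; exact hmin, hm⟩
  choose B hB1 hB2 using key
  refine ⟨Finset.univ.biUnion B, fun c => ⟨fun hc => ?_, ?_⟩⟩
  · obtain ⟨v, hv, hle⟩ := hB2 (Finset.univ.filter fun T => c T ≠ 0) c hc (by
      intro T
      simp)
    refine ⟨v, Finset.mem_biUnion.2 ⟨_, Finset.mem_univ _, hv⟩, fun T => ⟨hle T, fun h0 => ?_⟩⟩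
    have := ((hB1 _ v hv).2 T).1 h0
    simpa using this
  · rintro ⟨v, hv, hle⟩
    obtain ⟨P, _, hvP⟩ := Finset.mem_biUnion.1 hv
    exact (hB1 P v hvP).1.mono (fun T => (hle T).1) (fun T => (hle T).2)

end Pool.Agent.X248.SC
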