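import Pool.Agent.X248.SC.Fam
import Pool.Agent.X248.Core.Mem

/-!
# Recognising split clique graphs with a bounded stable side: the algorithm
-/

set_option autoImplicit false

namespace Pool.Agent.X248.SC

open Pool.Agent.NPC Pool.Agent.H622R2
open Pool.Agent.H495R3 (adjB adjB_iff)
open Pool.Agent.X248.Core (cnt card_filter_fin)

/-- The canonical list of a finite set. -/
noncomputable def can {j : ℕ} (F : Finset (Fin j)) : List ℕ := by
  classical
  exact (List.range j).filter fun i => decide (∃ h : i < j, (⟨i, h⟩ : Fin j) ∈ F)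

theorem mem_can {j : ℕ} (F : Finset (Fin j)) (i : Fin j) : i.1 ∈ can F ↔ i ∈ F := by
  classical
  simp [can]

theorem can_inj {j : ℕ} {F F' : Finset (Fin j)} (h : can F = can F') : F = F' := by
  ext i
  rw [← mem_can, h, mem_can]

/-- The comparison of numbers. -/
def cmp (m c : ℕ) : Bool := decide (m ≤ c) && (!decide (m = 0) || decide (c = 0))

theorem cmp_iff (m c : ℕ) : cmp m c = true ↔ (m ≤ c ∧ (m = 0 → c = 0)) := by
  unfold cmp
  simp only [Bool.and_eq_true, decide_eq_true_eq, Bool.or_eq_true, Bool.not_eq_true',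
    decide_eq_false_iff_not]
  exact and_congr_right fun _ => by
    constructor
    · rintro (h | h) h'
      · exact absurd h' h
      · exact h
    · intro h
      by_cases h' : m = 0
      · exact Or.inr (h h')
      · exact Or.inl h'

theorem table_one (j : ℕ) : ∃ tab : List (List (List ℕ × ℕ)),
    ∀ (c : Finset (Fin j) → ℕ) (c' : List ℕ → ℕ), (∀ F, c' (can F) = c F) →
      (Yes c ↔ (tab.any fun e => e.all fun p => cmp p.2 (c' p.1)) = true) := by
  obtain ⟨B, hB⟩ := exists_table j
  refine ⟨B.toList.map fun v => (Finset.univ : Finset (Finset (Fin j))).toList.map fun F =>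
    (can F, v F), fun c c' hc => ?_⟩
  rw [hB]
  simp only [List.any_map, List.any_eq_true, Finset.mem_toList, Function.comp_apply, List.all_map,
    List.all_eq_true, Finset.mem_univ, forall_true_left, cmp_iff, hc]
  rfl

theorem table_all (k : ℕ) : ∃ tab : List (ℕ × List (List ℕ × ℕ)),
    ∀ j ≤ k, ∀ (c : Finset (Fin j) → ℕ) (c' : List ℕ → ℕ), (∀ F, c' (can F) = c F) →
      (Yes c ↔ (tab.any fun e => decide (e.1 = j) && e.2.all fun p => cmp p.2 (c' p.1)) = true) := by
  choose tab htab using table_one
  refine ⟨(List.range (k + 1)).flatMap fun j => (tab j).map fun e => (j, e), ?_⟩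
  intro j hj c c' hc
  rw [htab j c c' hc]
  simp only [List.any_eq_true, List.mem_flatMap, List.mem_range, List.mem_map, Bool.and_eq_true,
    decide_eq_true_eq]
  constructor
  · rintro ⟨e, he, h⟩
    exact ⟨(j, e), ⟨j, by omega, e, he, rfl⟩, rfl, h⟩
  · rintro ⟨_, ⟨j', hj', e, he, rfl⟩, h1, h2⟩
    simp only at h1 h2
    subst h1
    exact ⟨e, he, h2⟩

/-- All lists of length at most `k` with entries below `n`. -/
def lists (n : ℕ) : ℕ → List (List ℕ)
  | 0 => [[]]
  | k + 1 => [] :: (List.range n).flatMap fun v => (lists n k).map fun L => v :: L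

theorem mem_lists (n : ℕ) : ∀ (k : ℕ) (L : List ℕ),
    L ∈ lists n k ↔ (L.length ≤ k ∧ ∀ v ∈ L, v < n)
  | 0, L => by
    simp only [lists, List.mem_singleton, Nat.le_zero, List.length_eq_zero_iff]
    constructor
    · rintro rfl; simp
    · exact fun h => h.1
  | k + 1, L => by
    simp only [lists, List.mem_cons, List.mem_flatMap, List.mem_range, List.mem_map, mem_lists n k]
    constructor
    · rintro (rfl | ⟨v, hv, L', ⟨h1, h2⟩, rfl⟩)
      · simp
      · simp only [List.length_cons, List.mem_cons, forall_eq_or_imp]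
        exact ⟨by omega, hv, h2⟩
    · rintro ⟨h1, h2⟩
      cases L with
      | nil => exact Or.inl rfl
      | cons v L' =>
        simp only [List.length_cons, List.mem_cons, forall_eq_or_imp] at h1 h2
        exact Or.inr ⟨v, h2.1, L', ⟨by omega, h2.2⟩, rfl⟩

/-- The type of a vertex. -/
def tyL (M : List (List Bool)) (L : List ℕ) (x : ℕ) : List ℕ :=
  (List.range L.length).filter fun i => adjB M (L.getD i 0) x

/-- The number of vertices of a given type. -/
def cntL (M : List (List Bool)) (L : List ℕ) (T : List ℕ) : ℕ :=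
  cnt M.length fun x => !decide (x ∈ L) && decide (tyL M L x = T)

/-- The test for one candidate. -/
def okL (tab : List (ℕ × List (List ℕ × ℕ))) (M : List (List Bool)) (L : List ℕ) : Bool :=
  ((List.range L.length).all fun a => (List.range L.length).all fun b =>
    decide (a = b) || !decide (L.getD a 0 = L.getD b 0)) &&
  (L.all fun a => L.all fun b => !adjB M a b) &&
  ((List.range M.length).all fun x => (List.range M.length).all fun y =>
    decide (x ∈ L) || decide (y ∈ L) || decide (x = y) || adjB M x y) &&
  ((List.range M.length).all fun x => decide (x ∈ L) || L.any fun a => adjB M a x) &&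
  (tab.any fun e => decide (e.1 = L.length) && e.2.all fun p => cmp p.2 (cntL M L p.1))

/-- The algorithm. -/
def decR (tab : List (ℕ × List (List ℕ × ℕ))) (k : ℕ) (M : List (List Bool)) : Bool :=
  (lists M.length k).any fun L => okL tab M L

/-- The normalised split partition: `S` is stable, the other vertices form a clique, and each of
them has a neighbour in `S`. -/
def IsNormSplit {V : Type} (G : SimpleGraph V) (S : Finset V) : Prop :=
  (∀ s ∈ S, ∀ s' ∈ S, ¬ G.Adj s s') ∧ (∀ x, x ∉ S → ∀ y, y ∉ S → x ≠ y → G.Adj x y) ∧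
    ∀ x, x ∉ S → ∃ s ∈ S, G.Adj s x

/-- A yes-instance of the problem `REC_S(k)`: a split graph with at most `k` vertices in the stable
side of its normalised partition, which is a clique graph. -/
def REC (k : ℕ) (M : List (List Bool)) : Prop :=
  (∃ S : Finset (Fin M.length), S.card ≤ k ∧ IsNormSplit (matGraph M) S) ∧
    IsCliqueGraph (matGraph M)

/-- A graph with an enumerated stable side. -/
theorem clique_iff {V : Type} [Finite V] {G : SimpleGraph V} {j : ℕ} {S : Fin j → V}
    (hS : Function.Injective S) (h1 : ∀ a b, ¬ G.Adj (S a) (S b))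
    (h2 : ∀ x, x ∉ Set.range S → ∀ y, y ∉ Set.range S → x ≠ y → G.Adj x y)
    (t : {x // x ∉ Set.range S} → Finset (Fin j)) (ht : ∀ x i, i ∈ t x ↔ G.Adj (S i) x.1) :
    IsCliqueGraph G ↔ Yes (cnts t) := by
  classical
  rw [← yes_iff]
  have e : SG t ≃g G := by
    refine ⟨((Equiv.ofInjective S hS).sumCongr (Equiv.refl _)).trans
      (Equiv.Set.sumCompl (Set.range S)), ?_⟩
    rintro (u | u) (v | v)
    · show G.Adj (S u) (S v) ↔ False
      simp [h1]
    · show G.Adj (S u) v.1 ↔ u ∈ t v
      rw [ht]
    · show G.Adj u.1 (S v) ↔ v ∈ t u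
      rw [ht, G.adj_comm]
    · show G.Adj u.1 v.1 ↔ u ≠ v
      constructor
      · intro h h'
        rw [h'] at h
        exact h.ne rfl
      · intro h
        exact h2 _ u.2 _ v.2 (fun h' => h (Subtype.ext h'))
  exact ⟨fun h => h.of_iso e, fun h => IsCliqueGraph.of_iso e.symm h⟩

end Pool.Agent.X248.SC
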