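import Mathlib

/-!
# Clique graphs: adding true twins
-/

set_option autoImplicit false

namespace Pool.Agent.X248.SC

/-- The clique graph: the vertices are the (nonempty) maximal cliques, two of them adjacent when
they share a vertex. -/
def cliqueGraph {W : Type} (H : SimpleGraph W) :
    SimpleGraph {C : Set W // Maximal H.IsClique C ∧ C.Nonempty} where
  Adj C D := C ≠ D ∧ (C.1 ∩ D.1).Nonempty
  symm := ⟨fun _ _ h => ⟨h.1.symm, by rw [Set.inter_comm]; exact h.2⟩⟩
  loopless := ⟨fun _ h => h.1 rfl⟩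

/-- The graph is the clique graph of some finite graph. -/
def IsCliqueGraph {V : Type} (G : SimpleGraph V) : Prop :=
  ∃ (W : Type) (_ : Finite W) (H : SimpleGraph W), Nonempty (G ≃g cliqueGraph H)

theorem IsCliqueGraph.of_iso {V V' : Type} {G : SimpleGraph V} {G' : SimpleGraph V'} (e : G' ≃g G)
    (h : IsCliqueGraph G) : IsCliqueGraph G' := by
  obtain ⟨W, hW, H, ⟨f⟩⟩ := h
  exact ⟨W, hW, H, ⟨e.trans f⟩⟩

/-- The graph with a true twin of `x` added. -/
def twin {V : Type} (G : SimpleGraph V) (x : V) : SimpleGraph (Option V) where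
  Adj u v := match u, v with
    | some u, some v => G.Adj u v
    | none, some v => v = x ∨ G.Adj x v
    | some u, none => u = x ∨ G.Adj x u
    | none, none => False
  symm := ⟨by
    rintro (_ | u) (_ | v) h
    · exact h
    · exact h
    · exact h
    · exact SimpleGraph.Adj.symm h⟩
  loopless := ⟨by
    rintro (_ | u) h
    · exact h
    · exact G.irrefl h⟩

section

variable {W : Type} (H : SimpleGraph W) (C : Set W)

/-- Two new vertices, adjacent exactly to the vertices of a clique. -/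
def ext : SimpleGraph (W ⊕ Bool) where
  Adj u v := match u, v with
    | Sum.inl u, Sum.inl v => H.Adj u v
    | Sum.inl u, Sum.inr _ => u ∈ C
    | Sum.inr _, Sum.inl v => v ∈ C
    | Sum.inr _, Sum.inr _ => False
  symm := ⟨by
    rintro (u | u) (v | v) h
    · exact SimpleGraph.Adj.symm h
    · exact h
    · exact h
    · exact h⟩
  loopless := ⟨by
    rintro (u | u) h
    · exact H.irrefl h
    · exact h⟩

variable {H C}

theorem clique_inl {D : Set W} (hD : H.IsClique D) : (ext H C).IsClique (Sum.inl '' D) := by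
  rintro _ ⟨u, hu, rfl⟩ _ ⟨v, hv, rfl⟩ huv
  exact hD hu hv (fun h => huv (by rw [h]))

theorem clique_pre {D : Set (W ⊕ Bool)} (hD : (ext H C).IsClique D) :
    H.IsClique (Sum.inl ⁻¹' D) := by
  intro u hu v hv huv
  exact hD hu hv (fun h => huv (Sum.inl_injective h))

theorem clique_ext (hC : H.IsClique C) (b : Bool) :
    (ext H C).IsClique (insert (Sum.inr b) (Sum.inl '' C)) := by
  rintro _ (rfl | ⟨u, hu, rfl⟩) _ (rfl | ⟨v, hv, rfl⟩) huv
  · exact absurd rfl huv
  · exact hv
  · exact hu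
  · exact hC hu hv (fun h => huv (by rw [h]))

theorem maximal_inl {D : Set W} (hD : Maximal H.IsClique D) (hC : H.IsClique C) (hne : D ≠ C)
    (hDne : D.Nonempty) : Maximal (ext H C).IsClique (Sum.inl '' D) := by
  refine ⟨clique_inl hD.1, fun E hE hDE => ?_⟩
  have h1 : D ⊆ Sum.inl ⁻¹' E := fun u hu => hDE ⟨u, hu, rfl⟩
  have h2 := hD.2 (clique_pre hE) h1
  rintro (u | b) hu
  · exact ⟨u, h2 hu, rfl⟩
  · exfalso
    have h3 : D ⊆ C := by
      intro v hv
      exact hE hu (hDE ⟨v, hv, rfl⟩) (by simp)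
    exact hne (Set.Subset.antisymm h3 (hD.2 hC h3))

theorem maximal_ext (hC : Maximal H.IsClique C) (b : Bool) :
    Maximal (ext H C).IsClique (insert (Sum.inr b) (Sum.inl '' C)) := by
  refine ⟨clique_ext hC.1 b, fun E hE hDE => ?_⟩
  have hb : Sum.inr b ∈ E := hDE (Set.mem_insert _ _)
  have h1 : C ⊆ Sum.inl ⁻¹' E := fun u hu => hDE (Or.inr ⟨u, hu, rfl⟩)
  have h2 := hC.2 (clique_pre hE) h1
  rintro (u | b') hu
  · exact Or.inr ⟨u, h2 hu, rfl⟩
  · left
    by_contra hne
    exact hE hb hu (fun h => hne h.symm)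

theorem maximal_cases (hC : Maximal H.IsClique C) {E : Set (W ⊕ Bool)}
    (hE : Maximal (ext H C).IsClique E) :
    (∃ b, E = insert (Sum.inr b) (Sum.inl '' C)) ∨
      ∃ D, Maximal H.IsClique D ∧ D ≠ C ∧ E = Sum.inl '' D := by
  by_cases h : ∃ b, Sum.inr b ∈ E
  · left
    obtain ⟨b, hb⟩ := h
    refine ⟨b, Set.Subset.antisymm ?_ (hE.2 (clique_ext hC.1 b) ?_)⟩ <;>
    · rintro (u | b') hu
      · exact Or.inr ⟨u, hE.1 hb hu (by simp), rfl⟩
      · left
        by_contra hne
        exact hE.1 hb hu (fun h => hne h.symm)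
  · right
    push Not at h
    have hEq : E = Sum.inl '' (Sum.inl ⁻¹' E) := by
      ext (u | b)
      · simp
      · simp [h b]
    have hmax : Maximal H.IsClique (Sum.inl ⁻¹' E) := by
      refine ⟨clique_pre hE.1, fun D hD hsub => ?_⟩
      have h1 : E ⊆ Sum.inl '' D := by
        rw [hEq]
        exact Set.image_mono hsub
      have h2 := hE.2 (clique_inl hD) h1
      intro u hu
      exact h2 ⟨u, hu, rfl⟩
    refine ⟨_, hmax, ?_, hEq⟩
    intro hCe
    have h1 : E ⊆ insert (Sum.inr true) (Sum.inl '' C) := by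
      rw [hEq, hCe]
      exact Set.subset_insert _ _
    exact h true (hE.2 (clique_ext hC.1 true) h1 (Set.mem_insert _ _))

end

/-- **Adding a true twin of a vertex to a clique graph gives a clique graph.** -/
theorem isCliqueGraph_twin {V : Type} {G : SimpleGraph V} (h : IsCliqueGraph G) (x : V) :
    IsCliqueGraph (twin G x) := by
  classical
  obtain ⟨W, hW, H, ⟨f⟩⟩ := h
  obtain ⟨C, hCdef⟩ : ∃ C, C = (f x).1 := ⟨_, rfl⟩
  have hC : Maximal H.IsClique C := by rw [hCdef]; exact (f x).2.1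
  have hCne : C.Nonempty := by rw [hCdef]; exact (f x).2.2
  have hfne : ∀ v, v ≠ x → (f v).1 ≠ C := by
    intro v hv h
    rw [hCdef] at h
    exact hv (f.injective (Subtype.ext h))
  -- the bijection
  let ψ : Option V → {E : Set (W ⊕ Bool) // Maximal (ext H C).IsClique E ∧ E.Nonempty} := fun o =>
    match o with
    | none => ⟨insert (Sum.inr true) (Sum.inl '' C), maximal_ext hC true,
        Set.insert_nonempty _ _⟩
    | some v => if hv : v = x then ⟨insert (Sum.inr false) (Sum.inl '' C), maximal_ext hC false,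
        Set.insert_nonempty _ _⟩
      else ⟨Sum.inl '' (f v).1, maximal_inl (f v).2.1 hC.1 (hfne v hv) (f v).2.2,
        (f v).2.2.image _⟩
  have ψn : (ψ none).1 = insert (Sum.inr true) (Sum.inl '' C) := rfl
  have ψx : (ψ (some x)).1 = insert (Sum.inr false) (Sum.inl '' C) := by simp [ψ]
  have ψv : ∀ v, v ≠ x → (ψ (some v)).1 = Sum.inl '' (f v).1 := by
    intro v hv
    simp [ψ, hv]
  have hinj : Function.Injective ψ := by
    have key : ∀ a b : Option V, (ψ a).1 = (ψ b).1 → a = b := by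
      have c1 : ∀ v, (Sum.inr true : W ⊕ Bool) ∉ (ψ (some v)).1 := by
        intro v
        by_cases hv : v = x
        · rw [hv, ψx]; simp
        · rw [ψv v hv]; simp
      have c2 : ∀ v, v ≠ x → (Sum.inr false : W ⊕ Bool) ∉ (ψ (some v)).1 := by
        intro v hv
        rw [ψv v hv]; simp
      have n1 : (Sum.inr true : W ⊕ Bool) ∈ (ψ none).1 := by rw [ψn]; simp
      have n2 : (Sum.inr false : W ⊕ Bool) ∈ (ψ (some x)).1 := by rw [ψx]; simp
      rintro (_ | u) (_ | v) h
      · rfl
      · rw [h] at n1; exact absurd n1 (c1 v)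
      · rw [← h] at n1; exact absurd n1 (c1 u)
      · by_cases hu : u = x
        · by_cases hv : v = x
          · rw [hu, hv]
          · rw [← hu, h] at n2
            exact absurd n2 (c2 v hv)
        · by_cases hv : v = x
          · rw [← hv, ← h] at n2
            exact absurd n2 (c2 u hu)
          · rw [ψv u hu, ψv v hv] at h
            have h2 := Set.image_injective.2 Sum.inl_injective h
            rw [f.injective (Subtype.ext h2)]
    intro a b h
    exact key a b (congrArg Subtype.val h)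
  have hsurj : Function.Surjective ψ := by
    rintro ⟨E, hE, hEne⟩
    rcases maximal_cases hC hE with ⟨b, rfl⟩ | ⟨D, hD, hDC, rfl⟩
    · cases b
      · exact ⟨some x, Subtype.ext ψx⟩
      · exact ⟨none, Subtype.ext ψn⟩
    · have hDne : D.Nonempty := by
        obtain ⟨_, u, hu, _⟩ := hEne
        exact ⟨u, hu⟩
      obtain ⟨v, hv⟩ := f.surjective ⟨D, hD, hDne⟩
      have hvx : v ≠ x := by
        rintro rfl
        apply hDC
        rw [hCdef, hv]
      refine ⟨some v, Subtype.ext ?_⟩
      rw [ψv v hvx, hv]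
  have hadjf : ∀ u v, G.Adj u v ↔ (f u ≠ f v ∧ ((f u).1 ∩ (f v).1).Nonempty) := fun u v =>
    f.map_adj_iff.symm
  have hinter : ∀ D E : Set W, ((Sum.inl '' D : Set (W ⊕ Bool)) ∩ Sum.inl '' E).Nonempty ↔
      (D ∩ E).Nonempty := by
    intro D E
    rw [← Set.image_inter Sum.inl_injective, Set.image_nonempty]
  have hinter2 : ∀ (D E : Set W) (b : Bool),
      ((insert (Sum.inr b) (Sum.inl '' D) : Set (W ⊕ Bool)) ∩ Sum.inl '' E).Nonempty ↔
      (D ∩ E).Nonempty := by
    intro D E b
    rw [Set.insert_inter_of_notMem (by simp), hinter]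
  have hxv : ∀ v, v ≠ x → (G.Adj x v ↔ (C ∩ (f v).1).Nonempty) := by
    intro v hv
    rw [hadjf, hCdef]
    exact ⟨fun h => h.2, fun h => ⟨fun h' => hv (f.injective h').symm, h⟩⟩
  have hne : ∀ a b : Option V, a ≠ b → ψ a ≠ ψ b := fun a b h h' => h (hinj h')
  refine ⟨W ⊕ Bool, inferInstance, ext H C, ⟨⟨Equiv.ofBijective ψ ⟨hinj, hsurj⟩, ?_⟩⟩⟩
  intro a b
  simp only [Equiv.ofBijective_apply]
  show (ψ a ≠ ψ b ∧ ((ψ a).1 ∩ (ψ b).1).Nonempty) ↔ (twin G x).Adj a b
  have sym : ∀ a b : Option V, (ψ a ≠ ψ b ∧ ((ψ a).1 ∩ (ψ b).1).Nonempty) ↔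
      (ψ b ≠ ψ a ∧ ((ψ b).1 ∩ (ψ a).1).Nonempty) := by
    intro a b
    rw [Set.inter_comm]
    exact and_congr ne_comm Iff.rfl
  have k1 : ∀ v, (ψ none ≠ ψ (some v) ∧ ((ψ none).1 ∩ (ψ (some v)).1).Nonempty) ↔
      (v = x ∨ G.Adj x v) := by
    intro v
    by_cases hv : v = x
    · rw [hv]
      refine ⟨fun _ => Or.inl rfl, fun _ => ⟨hne none (some x) (by simp), ?_⟩⟩
      rw [ψn, ψx]
      obtain ⟨w, hw⟩ := hCne
      exact ⟨Sum.inl w, Or.inr ⟨w, hw, rfl⟩, Or.inr ⟨w, hw, rfl⟩⟩
    · rw [ψn, ψv v hv, hinter2, hxv v hv]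
      constructor
      · exact fun h => Or.inr h.2
      · rintro (h | h)
        · exact absurd h hv
        · exact ⟨hne none (some v) (by simp), h⟩
  have k2 : ∀ v, v ≠ x → ((ψ (some x) ≠ ψ (some v) ∧
      ((ψ (some x)).1 ∩ (ψ (some v)).1).Nonempty) ↔ G.Adj x v) := by
    intro v hv
    rw [ψx, ψv v hv, hinter2, hxv v hv]
    exact ⟨fun h => h.2, fun h => ⟨hne (some x) (some v)
      (fun h' => hv (Option.some_injective _ h').symm), h⟩⟩
  rcases a with _ | u <;> rcases b with _ | v
  · simp [SC.twin]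
  · exact k1 v
  · exact (sym (some u) none).trans (k1 u)
  · show _ ↔ G.Adj u v
    by_cases hu : u = x
    · rw [hu]
      by_cases hv : v = x
      · rw [hv]; simp
      · exact k2 v hv
    · by_cases hv : v = x
      · rw [hv, G.adj_comm]
        exact (sym (some u) (some x)).trans (k2 u hu)
      · rw [hadjf, ψv u hu, ψv v hv, hinter]
        refine and_congr ?_ Iff.rfl
        constructor
        · intro h h'
          exact h (by rw [f.injective h'])
        · intro h
          exact hne (some u) (some v) (fun h' => h (by rw [Option.some_injective _ h']))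

end Pool.Agent.X248.SC
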